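import Pool.Agent.H53.NR.Targets

/-!
# A linear order on a system (module LIN)
-/

set_option autoImplicit false

namespace Pool.Agent.H39.NR

open Pool.Agent.H53.NR

theorem pf_LIN : T_LIN := by
  classical
  intro X Q P _ _ fr π t d
  obtain ⟨n, ⟨ι⟩⟩ := Finite.exists_equiv_fin P
  let g : P → Q ×ₗ Fin n := fun x => toLex (π x, ι x)
  have hg : Function.Injective g := fun x y h =>
    ι.injective (Prod.ext_iff.1 (toLex.injective h)).2
  let _ : LinearOrder P := LinearOrder.lift' g hg
  let _ : Fintype P := Fintype.ofFinite P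
  let o : Fin (Fintype.card P) ≃o P := monoEquivOfFin P rfl
  have hlt : ∀ x y : P, π x < π y → x < y := fun x y h => by
    change g x < g y
    exact Prod.Lex.toLex_lt_toLex.2 (Or.inl h)
  refine ⟨Fintype.card P, o.symm.toEquiv, fun u => t (o u),
    fun u v => if π (o u) = π (o v) then fr (t (o u)) (t (o v)) else d (o u) (o v), ?_, ?_, ?_, ?_⟩
  · intro x y h
    exact o.symm.strictMono (hlt x y h)
  · intro x
    simp
  · intro x y h
    simp [h.ne]
  · intro x y h
    simp [h]

end Pool.Agent.H39.NR
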